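import Pool.Agent.E8helper14.Pot.Main

/-!
# Free products of potent groups: the theorem
-/

set_option autoImplicit false

namespace Pool.Agent.E8helper14.Pot

open Polynomial Monoid.Coprod

/-- `n` is the order of the image of `x` in a finite quotient (homomorphic image) of `G` -/
def Att {G : Type} [Group G] (x : G) (n : ℕ) : Prop :=
  ∃ (H : Type) (_ : Group H) (_ : Finite H) (f : G →* H), orderOf (f x) = n

def Potent (G : Type) [Group G] : Prop := ∀ x : G, ∀ n : ℕ, 0 < n → n ∣ orderOf x → Att x n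

theorem Att.lcm {G : Type} [Group G] {x : G} {m n : ℕ} (h1 : Att x m) (h2 : Att x n) :
    Att x (m.lcm n) := by
  obtain ⟨H, gH, fH, f, hf⟩ := h1
  obtain ⟨K, gK, fK, g, hg⟩ := h2
  exact ⟨H × K, inferInstance, inferInstance, f.prod g, by
    rw [MonoidHom.prod_apply, Prod.orderOf, hf, hg]⟩

theorem Att.comap {G G' : Type} [Group G] [Group G'] {x : G} {n : ℕ} (φ : G →* G')
    (h : Att (φ x) n) : Att x n := by
  obtain ⟨H, gH, fH, f, hf⟩ := h
  exact ⟨H, gH, fH, f.comp φ, hf⟩

theorem Potent.rf {G : Type} [Group G] (h : Potent G) : RF G := by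
  intro a ha
  by_cases h0 : orderOf a = 0
  · obtain ⟨H, gH, fH, f, hf⟩ := h a 2 (by norm_num) (by rw [h0]; exact dvd_zero 2)
    refine ⟨H, gH, fH, f, fun h1 => ?_⟩
    rw [h1, orderOf_one] at hf
    norm_num at hf
  · obtain ⟨H, gH, fH, f, hf⟩ := h a (orderOf a) (Nat.pos_of_ne_zero h0) dvd_rfl
    refine ⟨H, gH, fH, f, fun h1 => ?_⟩
    rw [h1, orderOf_one] at hf
    exact ha (orderOf_eq_one_iff.1 hf.symm)

/-- the elements of the Cartesian subgroup -/
theorem att_cartesian {A B : Type} [Group A] [Group B] (hA : RF A) (hB : RF B)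
    (y : Monoid.Coprod A B) (hy : y ≠ 1) (h1 : fst y = 1) (h2 : snd y = 1) :
    ∀ n : ℕ, 0 < n → Att y n := by
  intro n
  induction n using Nat.recOnPosPrimePosCoprime with
  | prime_pow p k hp hk =>
    intro _
    obtain ⟨k, rfl⟩ : ∃ j, k = j + 1 := ⟨k - 1, by omega⟩
    exact prime_power hA hB p hp k y hy h1 h2
  | zero => intro h; exact absurd h (lt_irrefl 0)
  | one => intro _; exact ⟨Unit, inferInstance, inferInstance, 1, by simp⟩
  | coprime a b ha hb hab iha ihb =>
    intro _
    have := (iha (by omega)).lcm (ihb (by omega))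
    rwa [Nat.Coprime.lcm_eq_mul hab] at this

/-- the elements of the Cartesian subgroup have infinite order -/
theorem order_cartesian {A B : Type} [Group A] [Group B] (hA : RF A) (hB : RF B)
    (y : Monoid.Coprod A B) (hy : y ≠ 1) (h1 : fst y = 1) (h2 : snd y = 1) : orderOf y = 0 := by
  by_contra h0
  obtain ⟨H, gH, fH, f, hf⟩ := att_cartesian hA hB y hy h1 h2 (orderOf y + 1) (by omega)
  have h3 : orderOf (f y) ∣ orderOf y := orderOf_map_dvd f y
  rw [hf] at h3
  have := Nat.le_of_dvd (Nat.pos_of_ne_zero h0) h3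
  omega

theorem att_prod {A B : Type} [Group A] [Group B] (hA : Potent A) (hB : Potent B) (a : A) (b : B)
    (n : ℕ) : 0 < n → n ∣ (orderOf a).lcm (orderOf b) → Att (a, b) n := by
  by_cases ha : orderOf a = 0
  · intro hn _
    exact Att.comap (MonoidHom.fst A B) (hA a n hn (by rw [ha]; exact dvd_zero n))
  by_cases hb : orderOf b = 0
  · intro hn _
    exact Att.comap (MonoidHom.snd A B) (hB b n hn (by rw [hb]; exact dvd_zero n))
  induction n using Nat.recOnPosPrimePosCoprime with
  | prime_pow p k hp hk =>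
    intro hn hd
    have hl : (orderOf a).lcm (orderOf b) ≠ 0 := Nat.lcm_ne_zero ha hb
    rw [hp.pow_dvd_iff_le_factorization hl, Nat.factorization_lcm ha hb, Finsupp.sup_apply,
      le_sup_iff, ← hp.pow_dvd_iff_le_factorization ha, ← hp.pow_dvd_iff_le_factorization hb] at hd
    rcases hd with hd | hd
    · exact Att.comap (MonoidHom.fst A B) (hA a _ hn hd)
    · exact Att.comap (MonoidHom.snd A B) (hB b _ hn hd)
  | zero => intro h; exact absurd h (lt_irrefl 0)
  | one => intro _ _; exact ⟨Unit, inferInstance, inferInstance, 1, by simp⟩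
  | coprime c d hc hd hcd ihc ihd =>
    intro _ hdvd
    have := (ihc (by omega) (dvd_trans (dvd_mul_right _ _) hdvd)).lcm
      (ihd (by omega) (dvd_trans (dvd_mul_left _ _) hdvd))
    rwa [Nat.Coprime.lcm_eq_mul hcd] at this

/-- The main result. -/
theorem att_of_comparable {A B : Type} [Group A] [Group B] (hA : Potent A) (hB : Potent B)
    (x : Monoid.Coprod A B) (n : ℕ) (hn : 0 < n) (hd : n ∣ orderOf x)
    (hc : n ∣ (orderOf (fst x)).lcm (orderOf (snd x)) ∨
      (orderOf (fst x)).lcm (orderOf (snd x)) ∣ n) : Att x n := by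
  set e := (orderOf (fst x)).lcm (orderOf (snd x)) with he
  have hdiv : ∀ k, 0 < k → k ∣ e → Att x k := fun k hk hke =>
    Att.comap ((fst : Monoid.Coprod A B →* A).prod snd) (att_prod hA hB _ _ k hk hke)
  rcases hc with hc | hc
  · exact hdiv n hn hc
  have he0 : 0 < e := Nat.pos_of_dvd_of_pos hc hn
  by_cases h1 : x ^ e = 1
  · exact hdiv n hn (hd.trans (orderOf_dvd_of_pow_eq_one h1))
  have hf : fst (x ^ e) = 1 := by
    rw [map_pow]
    exact orderOf_dvd_iff_pow_eq_one.1 (Nat.dvd_lcm_left _ _)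
  have hs : snd (x ^ e) = 1 := by
    rw [map_pow]
    exact orderOf_dvd_iff_pow_eq_one.1 (Nat.dvd_lcm_right _ _)
  obtain ⟨m, rfl⟩ := hc
  have hm : 0 < m := Nat.pos_of_ne_zero (by rintro rfl; simp at hn)
  obtain ⟨H, gH, fH, f, hf'⟩ := att_cartesian hA.rf hB.rf (x ^ e) h1 hf hs m hm
  have h2 := (hdiv e he0 dvd_rfl).lcm ⟨H, gH, fH, f, rfl⟩
  rw [map_pow, orderOf_pow] at hf'
  have h3 : e.lcm (orderOf (f x)) = e * m := by
    rw [← hf', Nat.lcm, Nat.gcd_comm, Nat.mul_div_assoc _ (Nat.gcd_dvd_left _ _)]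
  rwa [h3] at h2

/-- torsion-free -/
def TF (G : Type) [Group G] : Prop := ∀ x : G, x ≠ 1 → orderOf x = 0

theorem tf_coprod {A B : Type} [Group A] [Group B] (hA : RF A) (hB : RF B) (tA : TF A)
    (tB : TF B) : TF (Monoid.Coprod A B) := by
  intro x hx
  by_cases h1 : fst x = 1
  · by_cases h2 : snd x = 1
    · exact order_cartesian hA hB x hx h1 h2
    · have := orderOf_map_dvd (snd : Monoid.Coprod A B →* B) x
      rw [tB _ h2] at this
      exact Nat.eq_zero_of_zero_dvd this
  · have := orderOf_map_dvd (fst : Monoid.Coprod A B →* A) x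
    rw [tA _ h1] at this
    exact Nat.eq_zero_of_zero_dvd this

theorem potent_coprod {A B : Type} [Group A] [Group B] (hA : Potent A) (hB : Potent B)
    (tA : TF A) (tB : TF B) : Potent (Monoid.Coprod A B) := by
  intro x n hn hd
  apply att_of_comparable hA hB x n hn hd
  by_cases h1 : fst x = 1
  · by_cases h2 : snd x = 1
    · right
      rw [h1, h2, orderOf_one, orderOf_one]
      simp
    · left
      rw [tB _ h2, Nat.lcm_zero_right]
      exact dvd_zero n
  · left
    rw [tA _ h1, Nat.lcm_zero_left]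
    exact dvd_zero n

end Pool.Agent.E8helper14.Pot
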