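import Pool.Agent.E8helper14.Pot.Core

/-!
# The general theorem on free products
-/

set_option autoImplicit false

namespace Pool.Agent.E8helper14.Pot

open Monoid.Coprod

theorem att_inj {A B : Type} [Group A] [Group B] (C : Type) [Group C] [Finite C]
    (φ : Monoid.Coprod A B →* C) (hα : Function.Injective (φ.comp inl))
    (hβ : Function.Injective (φ.comp inr)) (y : Monoid.Coprod A B) (hy : y ≠ 1)
    (h1 : φ y = 1) : ∀ n : ℕ, 0 < n → Att y n := by
  have hl : Monoid.Coprod.lift (φ.comp inl) (φ.comp inr) = φ := by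
    apply Monoid.Coprod.hom_ext <;> rfl
  have hy1 : Monoid.Coprod.lift (φ.comp inl) (φ.comp inr) y = 1 := by rw [hl, h1]
  intro n
  induction n using Nat.recOnPosPrimePosCoprime with
  | prime_pow p k hp hk =>
    intro _
    obtain ⟨k, rfl⟩ : ∃ j, k = j + 1 := ⟨k - 1, by omega⟩
    rcases hasEx y with ⟨a, hya⟩ | ⟨r, z, a, hz, hyz⟩
    · exfalso
      apply hy
      have : a = 1 := by
        apply hα
        rw [map_one, MonoidHom.comp_apply, ← hya, h1]
      rw [hya, this, map_one]
    · have qa : ∀ a : A, a ≠ 1 → (φ.comp inl) a ≠ 1 := fun a ha h =>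
        ha (hα (by rw [h, map_one]))
      have qb : ∀ b : B, b ≠ 1 → (φ.comp inr) b ≠ 1 := fun b hb h =>
        hb (hβ (by rw [h, map_one]))
      exact core C (φ.comp inl) (φ.comp inr) p hp k y r z a (hz.mono qa qb) hyz hy1
  | zero => intro h; exact absurd h (lt_irrefl 0)
  | one => intro _; exact ⟨Unit, inferInstance, inferInstance, 1, by simp⟩
  | coprime a b ha hb hab iha ihb =>
    intro _
    have := (iha (by omega)).lcm (ihb (by omega))
    rwa [Nat.Coprime.lcm_eq_mul hab] at this

theorem att_mul {G : Type} [Group G] (x : G) (e m : ℕ) (h1 : Att x e) (h2 : Att (x ^ e) m) :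
    Att x (e * m) := by
  obtain ⟨H, gH, fH, f, hf⟩ := h2
  have h3 := h1.lcm ⟨H, gH, fH, f, rfl⟩
  rw [map_pow, orderOf_pow] at hf
  have h4 : e.lcm (orderOf (f x)) = e * m := by
    rw [← hf, Nat.lcm, Nat.gcd_comm, Nat.mul_div_assoc _ (Nat.gcd_dvd_left _ _)]
  rwa [h4] at h3

/-- the normal closure of the kernels of `φ` on the factors -/
def kers {A B C : Type} [Group A] [Group B] [Group C] (φ : Monoid.Coprod A B →* C) :
    Subgroup (Monoid.Coprod A B) :=
  Subgroup.normalClosure {w | φ w = 1 ∧ ((∃ a : A, w = inl a) ∨ ∃ b : B, w = inr b)}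

instance kers_normal {A B C : Type} [Group A] [Group B] [Group C]
    (φ : Monoid.Coprod A B →* C) : (kers φ).Normal := Subgroup.normalClosure_normal

theorem att_general {A B C : Type} [Group A] [Group B] [Group C] [Finite C]
    (φ : Monoid.Coprod A B →* C) (x : Monoid.Coprod A B)
    (hD : x ^ orderOf (φ x) ∉ kers φ) (m : ℕ) (hm : 0 < m) : Att x (orderOf (φ x) * m) := by
  set e := orderOf (φ x) with he
  set KA := (φ.comp inl).ker with hKA
  set KB := (φ.comp inr).ker with hKB
  set q : Monoid.Coprod A B →* Monoid.Coprod (A ⧸ KA) (B ⧸ KB) :=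
    Monoid.Coprod.map (QuotientGroup.mk' KA) (QuotientGroup.mk' KB) with hq
  set φ' : Monoid.Coprod (A ⧸ KA) (B ⧸ KB) →* C :=
    Monoid.Coprod.lift (QuotientGroup.kerLift (φ.comp inl)) (QuotientGroup.kerLift (φ.comp inr))
    with hφ'
  have h1 : φ'.comp q = φ := by
    apply Monoid.Coprod.hom_ext <;> rfl
  set ψ : Monoid.Coprod (A ⧸ KA) (B ⧸ KB) →* Monoid.Coprod A B ⧸ kers φ :=
    Monoid.Coprod.lift
      (QuotientGroup.lift KA ((QuotientGroup.mk' (kers φ)).comp inl) (by
        intro a ha
        refine (QuotientGroup.eq_one_iff _).2 (Subgroup.subset_normalClosure ⟨ha, Or.inl ⟨a, rfl⟩⟩)))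
      (QuotientGroup.lift KB ((QuotientGroup.mk' (kers φ)).comp inr) (by
        intro b hb
        refine (QuotientGroup.eq_one_iff _).2 (Subgroup.subset_normalClosure ⟨hb, Or.inr ⟨b, rfl⟩⟩)))
    with hψ
  have h2 : ψ.comp q = QuotientGroup.mk' (kers φ) := by
    apply Monoid.Coprod.hom_ext <;> rfl
  have hqy : q x ^ e ≠ 1 := by
    intro h
    apply hD
    rw [← map_pow] at h
    have h3 : QuotientGroup.mk' (kers φ) (x ^ e) = 1 := by
      rw [← h2, MonoidHom.comp_apply, h, map_one]
    exact (QuotientGroup.eq_one_iff _).1 h3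
  have h4 : φ' (q x) = φ x := DFunLike.congr_fun h1 x
  have h5 : φ' (q x ^ e) = 1 := by rw [map_pow, h4, he, pow_orderOf_eq_one]
  have h6 := att_inj C φ' (QuotientGroup.kerLift_injective (φ.comp inl))
    (QuotientGroup.kerLift_injective (φ.comp inr)) (q x ^ e) hqy h5 m hm
  have h7 : Att (q x) e := ⟨C, inferInstance, inferInstance, φ', by rw [h4, he]⟩
  exact (att_mul (q x) e m h7 h6).comap q

/-- Potency of a free product is decided by prime orders. -/
theorem potent_of_primes {A B : Type} [Group A] [Group B] (hA : Potent A) (hB : Potent B)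
    (h : ∀ x : Monoid.Coprod A B, orderOf x = 0 → ∀ p : ℕ, p.Prime →
      ∃ (C : Type) (_ : Group C) (_ : Finite C) (φ : Monoid.Coprod A B →* C),
        φ x ^ p = 1 ∧ x ^ p ∉ kers φ) : Potent (Monoid.Coprod A B) := by
  intro x n hn hd
  by_cases h0 : orderOf x = 0
  · clear hd
    induction n using Nat.recOnPosPrimePosCoprime with
    | prime_pow p k hp hk =>
      obtain ⟨C, gC, fC, φ, h1, h2⟩ := h x h0 p hp
      have h3 : orderOf (φ x) ∣ p := orderOf_dvd_of_pow_eq_one h1
      have h4 : x ^ orderOf (φ x) ∉ kers φ := by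
        intro hm
        obtain ⟨j, hj⟩ := h3
        apply h2
        rw [hj, pow_mul]
        exact Subgroup.pow_mem _ hm j
      obtain ⟨j, hj⟩ : orderOf (φ x) ∣ p ^ k := h3.trans (dvd_pow_self p (by omega))
      have hj0 : 0 < j := Nat.pos_of_ne_zero (by rintro rfl; rw [hj] at hn; simp at hn)
      rw [hj]
      exact att_general φ x h4 j hj0
    | zero => exact absurd hn (lt_irrefl 0)
    | one => exact ⟨Unit, inferInstance, inferInstance, 1, by simp⟩
    | coprime a b ha hb hab iha ihb =>
      have := (iha (by omega)).lcm (ihb (by omega))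
      rwa [Nat.Coprime.lcm_eq_mul hab] at this
  · apply att_of_comparable hA hB x n hn hd
    left
    set e := (orderOf (fst x)).lcm (orderOf (snd x)) with he
    by_cases hx : x ^ e = 1
    · exact hd.trans (orderOf_dvd_of_pow_eq_one hx)
    · exfalso
      have hf : fst (x ^ e) = 1 := by
        rw [map_pow]
        exact orderOf_dvd_iff_pow_eq_one.1 (Nat.dvd_lcm_left _ _)
      have hs : snd (x ^ e) = 1 := by
        rw [map_pow]
        exact orderOf_dvd_iff_pow_eq_one.1 (Nat.dvd_lcm_right _ _)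
      have h5 := order_cartesian hA.rf hB.rf _ hx hf hs
      have h6 : IsOfFinOrder x := orderOf_pos_iff.1 (Nat.pos_of_ne_zero h0)
      have h7 : IsOfFinOrder (x ^ e) := h6.pow
      exact absurd h5 (orderOf_pos_iff.2 h7).ne'

end Pool.Agent.E8helper14.Pot
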