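import Mathlib

/-!
# Quotients of finite groups with a normal `p`-subgroup in which an element has a given order
-/

set_option autoImplicit false

namespace Pool.Agent.E8helper14.Pot

open Subgroup

theorem pow_mem_coatom {L : Type} [Group L] [Finite L] {p : ℕ} (hp : p.Prime) (hL : IsPGroup p L)
    (K : Subgroup L) (hK : IsCoatom K) (z : L) : z ^ p ∈ K := by
  have : Fact p.Prime := ⟨hp⟩
  have hnil : Group.IsNilpotent L := hL.isNilpotent
  have hall : ∀ H : Subgroup L, IsCoatom H → H.Normal := by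
    have q := (Group.isNilpotent_of_finite_tfae (G := L)).out 0 2
    exact q.1 hnil
  have hn : K.Normal := hall K hK
  have hQ : IsPGroup p (L ⧸ K) := hL.to_quotient K
  set q : L →* L ⧸ K := QuotientGroup.mk' K with hq
  have hker : ∀ x, q x = 1 ↔ x ∈ K := fun x => by
    rw [hq]; exact QuotientGroup.eq_one_iff x
  rw [← hker]
  set S : Subgroup (L ⧸ K) := Subgroup.zpowers (q z ^ p) with hS
  have hle : K ≤ S.comap q := by
    intro x hx
    rw [Subgroup.mem_comap, (hker x).2 hx]
    exact one_mem _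
  rcases hK.le_iff.1 hle with h | h
  · have h1 : z ∈ S.comap q := by rw [h]; exact Subgroup.mem_top _
    rw [Subgroup.mem_comap, hS, Subgroup.mem_zpowers_iff] at h1
    obtain ⟨j, hj⟩ := h1
    obtain ⟨k, hk⟩ := hQ (q z)
    have hord : orderOf (q z) ∣ p ^ k := orderOf_dvd_of_pow_eq_one hk
    have h2 : (q z) ^ ((p : ℤ) * j - 1) = 1 := by
      rw [zpow_sub, zpow_one, zpow_mul, zpow_natCast, hj, mul_inv_cancel]
    have h3 : (orderOf (q z) : ℤ) ∣ (p : ℤ) * j - 1 := orderOf_dvd_iff_zpow_eq_one.2 h2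
    obtain ⟨i, hi, hio⟩ := (Nat.dvd_prime_pow hp).1 hord
    rcases Nat.eq_zero_or_pos i with h0 | h0
    · rw [h0, pow_zero] at hio
      rw [map_pow, orderOf_eq_one_iff.1 hio, one_pow]
    · exfalso
      have h4 : (p : ℤ) ∣ orderOf (q z) := by
        rw [hio]; push_cast; exact dvd_pow_self _ (by omega)
      have h5 : (p : ℤ) ∣ 1 := by
        have h6 := (h4.trans h3)
        have h7 : (p : ℤ) ∣ (p : ℤ) * j := dvd_mul_right _ _
        have h8 := dvd_sub h7 h6
        simpa using h8
      have h9 := Int.natAbs_dvd_natAbs.2 h5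
      simp at h9
      exact hp.one_lt.ne' h9
  · have h1 : S = ⊥ := by
      rw [eq_bot_iff]
      intro x hx
      obtain ⟨y, rfl⟩ := QuotientGroup.mk'_surjective K x
      have : y ∈ S.comap q := hx
      rw [h] at this
      rw [Subgroup.mem_bot]
      exact (hker y).2 this
    have h2 : q z ^ p ∈ S := Subgroup.mem_zpowers _
    rw [h1, Subgroup.mem_bot] at h2
    rw [map_pow, h2]

theorem notMem_normalClosure {E : Type} [Group E] [Finite E] {p : ℕ} (hp : p.Prime)
    (P : Subgroup E) (hPn : P.Normal) (hP : IsPGroup p P) (w : E) (hw : w ∈ P) (h1 : w ≠ 1) :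
    w ∉ normalClosure {w ^ p} := by
  intro hmem
  set L := normalClosure {w} with hLdef
  have hLP : L ≤ P := normalClosure_le_normal (by simpa using hw)
  have hwL : w ∈ L := subset_normalClosure rfl
  have hLp : IsPGroup p L := hP.to_le hLP
  have hcoat : ∃ M : Subgroup L, IsCoatom M := by
    rcases IsCoatomic.eq_top_or_exists_le_coatom (⊥ : Subgroup L) with h | ⟨M, hM, _⟩
    · exfalso
      have h2 : (⟨w, hwL⟩ : L) ∈ (⊤ : Subgroup L) := mem_top _
      rw [← h, mem_bot] at h2
      exact h1 (congrArg Subtype.val h2)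
    · exact ⟨M, hM⟩
  obtain ⟨M, hM⟩ := hcoat
  have hne : frattini L ≠ ⊤ := fun h => hM.1 (top_le_iff.1 (h ▸ frattini_le_coatom hM))
  have hpow : (⟨w, hwL⟩ : L) ^ p ∈ frattini L := by
    unfold frattini Order.radical
    rw [mem_iInf]
    intro K
    rw [mem_iInf]
    intro hK
    exact pow_mem_coatom hp hLp K hK _
  set F : Subgroup E := (frattini L).map L.subtype with hF
  have hFn : F.Normal := inferInstance
  have hwp : w ^ p ∈ F := ⟨(⟨w, hwL⟩ : L) ^ p, hpow, by simp⟩
  have h2 : normalClosure {w ^ p} ≤ F := normalClosure_le_normal (by simpa using hwp)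
  have h3 : L ≤ F := normalClosure_le_normal (by simpa using h2 hmem)
  apply hne
  rw [eq_top_iff]
  intro x _
  obtain ⟨y, hy, hxy⟩ := h3 x.2
  have : y = x := Subtype.ext hxy
  rwa [this] at hy

theorem exists_quotient {E : Type} [Group E] [Finite E] {p : ℕ} (hp : p.Prime)
    (P : Subgroup E) (hPn : P.Normal) (hP : IsPGroup p P) (z : E) (hz : z ∈ P) (k : ℕ)
    (h1 : z ^ p ^ k ≠ 1) :
    ∃ (H : Type) (_ : Group H) (_ : Finite H) (g : E →* H), orderOf (g z) = p ^ (k + 1) := by
  have : Fact p.Prime := ⟨hp⟩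
  refine ⟨E ⧸ normalClosure {z ^ p ^ (k + 1)}, inferInstance, inferInstance,
    QuotientGroup.mk' _, ?_⟩
  have hker : ∀ x, QuotientGroup.mk' (normalClosure {z ^ p ^ (k + 1)}) x = 1 ↔
      x ∈ normalClosure {z ^ p ^ (k + 1)} := fun x => QuotientGroup.eq_one_iff x
  apply orderOf_eq_prime_pow
  · rw [← map_pow, hker]
    have := notMem_normalClosure hp P hPn hP (z ^ p ^ k) (P.pow_mem hz _) h1
    rwa [← pow_mul, ← pow_succ] at this
  · rw [← map_pow, hker]
    exact subset_normalClosure rfl

end Pool.Agent.E8helper14.Pot
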