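import Pool.Agent.E8helper14.Pot.Prime

/-!
# Free products of potent groups
-/

set_option autoImplicit false

namespace Pool.Agent.E8helper14.Pot

open Polynomial Monoid.Coprod

theorem prime_power {A B : Type} [Group A] [Group B] (hA : RF A) (hB : RF B) (p : ℕ)
    (hp : p.Prime) (k : ℕ) (y : Monoid.Coprod A B) (hy : y ≠ 1) (h1 : fst y = 1)
    (h2 : snd y = 1) :
    ∃ (H : Type) (_ : Group H) (_ : Finite H) (f : Monoid.Coprod A B →* H),
      orderOf (f y) = p ^ (k + 1) := by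
  classical
  rcases hasEx y with ⟨a, rfl⟩ | ⟨r, z, a, hz, hyz⟩
  · exfalso
    apply hy
    rw [fst_apply_inl] at h1
    rw [h1, map_one]
  obtain ⟨FA, FB, hFA, hFB, hE⟩ := hz.finite
  obtain ⟨H1, g1, f1, α0, hα⟩ := hA.finset FA hFA
  obtain ⟨H2, g2, f2, β0, hβ⟩ := hB.finset FB hFB
  have : Fintype H1 := Fintype.ofFinite H1
  have : Fintype H2 := Fintype.ofFinite H2
  set α : A →* H1 × H2 := (MonoidHom.inl H1 H2).comp α0 with hαdef
  set β : B →* H1 × H2 := (MonoidHom.inr H1 H2).comp β0 with hβdef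
  have hE2 : Ex (fun a : A => α a ≠ 1) (fun b : B => β b ≠ 1) r z := by
    have qa : ∀ a : A, a ∈ FA → α a ≠ 1 := fun a ha h => hα a ha (Prod.ext_iff.1 h).1
    have qb : ∀ b : B, b ∈ FB → β b ≠ 1 := fun b hb h => hβ b hb (Prod.ext_iff.1 h).2
    exact hE.mono qa qb
  -- the image `Y` of `y` under the deformation
  set S := Matrix (H1 × H2) (H1 × H2) ℤ with hS
  set Y : S[X] := rho (H1 × H2) α β y with hY
  have hY0 : Y.coeff 0 = 1 := by
    rw [hY, rho_const, h1, h2, map_one, map_one]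
    exact map_one (Pm (H1 × H2))
  have hY1 : Y - 1 ≠ 0 := by
    intro hcon
    obtain ⟨_, ε, a0, hε, hc⟩ := rho_top (H1 × H2) α β hE2
    have hr := hz.pos
    have e1 : Y.coeff (2 * r) = 0 := by
      rw [sub_eq_zero.1 hcon, coeff_one, if_neg (by omega)]
    have e2 : Y.coeff (2 * r) = (ε • (Pm _ (α a0) * Nm (H1 × H2))) * Pm _ (α a) := by
      rw [hY, hyz, map_mul, rho_inl, coeff_mul_C, hc]
    rw [e1] at e2
    have e3 : (0 : S) = ε • Nm (H1 × H2) := by
      have e4 : Pm (H1 × H2) (α a0)⁻¹ * 0 * Pm (H1 × H2) (α a)⁻¹ = ε • Nm (H1 × H2) := by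
        rw [e2]
        calc Pm (H1 × H2) (α a0)⁻¹ * (ε • (Pm (H1 × H2) (α a0) * Nm (H1 × H2)) *
              Pm (H1 × H2) (α a)) * Pm (H1 × H2) (α a)⁻¹
            = ε • ((Pm (H1 × H2) (α a0)⁻¹ * Pm (H1 × H2) (α a0)) * Nm (H1 × H2) *
              (Pm (H1 × H2) (α a) * Pm (H1 × H2) (α a)⁻¹)) := by
              simp only [smul_mul_assoc, mul_smul_comm, mul_assoc]
          _ = ε • Nm (H1 × H2) := by
              rw [← map_mul, ← map_mul, inv_mul_cancel, mul_inv_cancel, map_one, one_mul, mul_one]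
      rw [mul_zero, zero_mul] at e4
      exact e4
    have hN : Nm (H1 × H2) = 0 := by
      rcases smul_eq_zero.1 e3.symm with h | h
      · exact absurd h hε
      · exact h
    have : ∃ c : H1 × H2, c ≠ 1 := by
      cases hE2 with
      | base a b h => exact ⟨_, h⟩
      | step r y a b _ h _ => exact ⟨_, h⟩
    obtain ⟨c, hc1⟩ := this
    exact Nm_ne _ c hc1 hN
  obtain ⟨q, Z, hq, hZ⟩ := factor_X _ (Y - 1) hY1 le_rfl
  have hq1 : 1 ≤ q := by
    by_contra h
    have h0 : q = 0 := by omega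
    subst h0
    rw [pow_zero, one_mul] at hq
    apply hZ
    rw [← hq, coeff_sub, hY0, coeff_one_zero, sub_self]
  have hYform : Y = 1 + X ^ q * Z := by rw [← hq]; abel
  obtain ⟨Z', hZ', hZ'0⟩ := pow_form q hq1 Z (p ^ k)
  rw [← hYform] at hZ'
  have hZ'ne : Z'.coeff 0 ≠ 0 := by
    rw [hZ'0, ← natCast_zsmul]
    exact smul_ne_zero (by exact_mod_cast pow_ne_zero k hp.ne_zero) hZ
  obtain ⟨s, hs1, hs⟩ := not_div p hp (Z'.coeff 0) hZ'ne
  set t : ℤ := (p : ℤ) ^ s with ht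
  have ht0 : t ≠ 0 := pow_ne_zero _ (by exact_mod_cast hp.ne_zero)
  have hev : ev S t Z' = t • ev S t (divX Z') + Z'.coeff 0 := by
    conv_lhs => rw [← X_mul_divX_add Z']
    rw [map_add, map_mul, ev_X, ev_C, zsmul_eq_mul]
  have hevne : ev S t Z' ≠ 0 := by
    intro h
    apply hs
    refine ⟨-ev S t (divX Z'), ?_⟩
    rw [h] at hev
    rw [smul_neg, eq_neg_iff_add_eq_zero, add_comm]
    exact hev.symm
  set V : S := (t ^ q) • ev S t Z' with hV
  have hVne : V ≠ 0 := smul_ne_zero (pow_ne_zero _ ht0) hevne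
  have hYk : (ev S t Y) ^ p ^ k = 1 + V := by
    rw [← map_pow, hZ', map_add, map_one, map_mul, map_pow, ev_X, hV, zsmul_eq_mul]
    push_cast
    rfl
  obtain ⟨m, hm1, hm⟩ := not_div p hp V hVne
  -- reduction modulo `p ^ m`
  have : NeZero (p ^ m) := ⟨pow_ne_zero _ hp.ne_zero⟩
  set T := Matrix (H1 × H2) (H1 × H2) (ZMod (p ^ m)) with hT
  set φ : S →+* T := (Int.castRingHom (ZMod (p ^ m))).mapMatrix with hφ
  have hφV : φ V ≠ 0 := map_ne p m V hm
  set f0 : Monoid.Coprod A B →* T := ((φ.comp (ev S t) : S[X] →+* T) : S[X] →* T).comp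
    (rho (H1 × H2) α β) with hf0
  set f : Monoid.Coprod A B →* Tˣ := f0.toHomUnits with hf
  have hfy : ((f y : Tˣ) : T) = φ (ev S t Y) := rfl
  have hpm : (p : T) ^ m = 0 := by
    have h0 : ((p ^ m : ℕ) : ZMod (p ^ m)) = 0 := ZMod.natCast_self _
    have h3 : ((p ^ m : ℕ) : T) = 0 := by
      ext i j
      rw [Matrix.natCast_apply]
      split_ifs
      · rw [h0]; rfl
      · rw [Nat.cast_zero]; rfl
    rw [← Nat.cast_pow]
    exact h3
  have hmem : f y ∈ cong T p := by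
    refine ⟨φ ((p : S) ^ (s * q - 1) * ev S t Z), ?_⟩
    rw [hfy, hYform, map_add, map_one, map_mul, map_pow, ev_X, map_add, map_one]
    congr 1
    have h3 : ((p : ℕ) : T) = φ ((p : ℕ) : S) := by rw [map_natCast]
    rw [h3, ← map_mul, ← mul_assoc, ← pow_succ']
    congr 2
    rw [ht]
    push_cast
    rw [← pow_mul]
    congr 1
    have : 1 ≤ s * q := Nat.one_le_iff_ne_zero.2 (Nat.mul_ne_zero (by omega) (by omega))
    omega
  have hne : (f y) ^ p ^ k ≠ 1 := by
    intro h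
    have h3 := congrArg (fun u : Tˣ => (u : T)) h
    simp only [Units.val_pow_eq_pow_val, Units.val_one] at h3
    rw [hfy, ← map_pow, hYk, map_add, map_one] at h3
    exact hφV (by simpa using h3)
  obtain ⟨H, gH, fH, g, hg⟩ := exists_quotient hp (cong T p) (cong_normal T p)
    (cong_isPGroup T p m hpm) (f y) hmem k hne
  exact ⟨H, gH, fH, g.comp f, hg⟩

end Pool.Agent.E8helper14.Pot
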