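import Pool.Agent.E8helper14.Pot.Word

/-!
# Elements of the Cartesian subgroup: finite quotients in which the order is a given prime power
-/

set_option autoImplicit false

namespace Pool.Agent.E8helper14.Pot

open Polynomial Monoid.Coprod

/-- residually finite -/
def RF (A : Type) [Group A] : Prop :=
  ∀ a : A, a ≠ 1 → ∃ (H : Type) (_ : Group H) (_ : Finite H) (f : A →* H), f a ≠ 1

theorem RF.finset {A : Type} [Group A] (h : RF A) (F : Finset A) (hF : ∀ a ∈ F, a ≠ 1) :
    ∃ (H : Type) (_ : Group H) (_ : Finite H) (f : A →* H), ∀ a ∈ F, f a ≠ 1 := by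
  classical
  induction F using Finset.induction_on with
  | empty => exact ⟨Unit, inferInstance, inferInstance, 1, by simp⟩
  | insert a F _ ih =>
    obtain ⟨H, gH, fH, f, hf⟩ := ih fun b hb => hF b (Finset.mem_insert_of_mem hb)
    obtain ⟨K, gK, fK, g, hg⟩ := h a (hF a (Finset.mem_insert_self _ _))
    refine ⟨H × K, inferInstance, inferInstance, f.prod g, ?_⟩
    intro b hb h1
    rw [MonoidHom.prod_apply, Prod.mk_eq_one] at h1
    rcases Finset.mem_insert.1 hb with rfl | hb
    · exact hg h1.2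
    · exact hf b hb h1.1

theorem factor_X {S : Type} [Ring S] : ∀ (n : ℕ) (W : S[X]), W ≠ 0 → W.natDegree ≤ n →
    ∃ (q : ℕ) (Z : S[X]), W = X ^ q * Z ∧ Z.coeff 0 ≠ 0 := by
  intro n
  induction n with
  | zero =>
    intro W hW hn
    refine ⟨0, W, by simp, ?_⟩
    intro h
    apply hW
    rw [eq_C_of_natDegree_le_zero hn, h, Polynomial.C_0]
  | succ n ih =>
    intro W hW hn
    by_cases h : W.coeff 0 = 0
    · have h1 : X * divX W = W := by
        have := X_mul_divX_add W
        rwa [h, Polynomial.C_0, add_zero] at this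
      have h2 : divX W ≠ 0 := by
        intro h2
        rw [h2, mul_zero] at h1
        exact hW h1.symm
      obtain ⟨q, Z, h3, h4⟩ := ih (divX W) h2 (by rw [natDegree_divX_eq_natDegree_tsub_one]; omega)
      refine ⟨q + 1, Z, ?_, h4⟩
      rw [← h1, h3, pow_succ', mul_assoc]
    · exact ⟨0, W, by simp, h⟩

theorem pow_form {S : Type} [Ring S] (q : ℕ) (hq : 1 ≤ q) (Z : S[X]) (j : ℕ) :
    ∃ Z' : S[X], (1 + X ^ q * Z) ^ j = 1 + X ^ q * Z' ∧ Z'.coeff 0 = j • Z.coeff 0 := by
  induction j with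
  | zero => exact ⟨0, by simp, by simp⟩
  | succ j ih =>
    obtain ⟨Z', h1, h2⟩ := ih
    refine ⟨Z' + Z + X ^ q * (Z' * Z), ?_, ?_⟩
    · rw [pow_succ, h1]
      have hc : Z' * X ^ q = X ^ q * Z' := (commute_X_pow Z' q).eq.symm
      calc (1 + X ^ q * Z') * (1 + X ^ q * Z)
          = 1 + X ^ q * Z' + X ^ q * Z + X ^ q * (Z' * X ^ q) * Z := by noncomm_ring
        _ = 1 + X ^ q * (Z' + Z + X ^ q * (Z' * Z)) := by rw [hc]; noncomm_ring
    · rw [coeff_add, coeff_add, h2, mul_coeff_zero]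
      have : (X ^ q : S[X]).coeff 0 = 0 := by
        rw [coeff_X_pow, if_neg (by omega)]
      rw [this, zero_mul, add_zero, succ_nsmul]

/-- evaluation at an integer -/
noncomputable def ev (S : Type) [Ring S] (t : ℤ) : S[X] →+* S :=
  eval₂RingHom' (RingHom.id S) (t : S) (fun a => (Int.commute_cast a t))

theorem ev_X (S : Type) [Ring S] (t : ℤ) : ev S t X = (t : S) := by
  show eval₂ _ _ _ = _
  rw [eval₂_X]

theorem ev_C (S : Type) [Ring S] (t : ℤ) (a : S) : ev S t (Polynomial.C a) = a := by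
  show eval₂ _ _ _ = _
  rw [eval₂_C, RingHom.id_apply]

section

variable {C : Type} [Fintype C] [DecidableEq C]

theorem not_div (p : ℕ) (hp : p.Prime) (M : Matrix C C ℤ) (hM : M ≠ 0) :
    ∃ s : ℕ, 1 ≤ s ∧ ¬ ∃ M' : Matrix C C ℤ, M = ((p : ℤ) ^ s) • M' := by
  have : ∃ i j, M i j ≠ 0 := by
    by_contra h
    push Not at h
    exact hM (by ext i j; simpa using h i j)
  obtain ⟨i, j, hij⟩ := this
  refine ⟨(M i j).natAbs, Int.natAbs_pos.2 hij, ?_⟩
  rintro ⟨M', hM'⟩
  have h1 : (p : ℤ) ^ (M i j).natAbs ∣ M i j := by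
    refine ⟨M' i j, ?_⟩
    have := congrFun (congrFun hM' i) j
    rw [Matrix.smul_apply, smul_eq_mul] at this
    exact this
  have h2 := Int.natAbs_dvd_natAbs.2 h1
  rw [Int.natAbs_pow, Int.natAbs_natCast] at h2
  have h3 := Nat.le_of_dvd (Int.natAbs_pos.2 hij) h2
  exact absurd (Nat.lt_pow_self hp.one_lt (n := (M i j).natAbs)) (by omega)

theorem map_ne (p m : ℕ) (V : Matrix C C ℤ)
    (hV : ¬ ∃ M' : Matrix C C ℤ, V = ((p : ℤ) ^ m) • M') :
    (Int.castRingHom (ZMod (p ^ m))).mapMatrix V ≠ 0 := by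
  intro h
  apply hV
  have h1 : ∀ i j, ∃ z : ℤ, V i j = (p : ℤ) ^ m * z := by
    intro i j
    have := congrFun (congrFun h i) j
    simp only [RingHom.mapMatrix_apply, Matrix.map_apply, Matrix.zero_apply,
      eq_intCast] at this
    rw [ZMod.intCast_zmod_eq_zero_iff_dvd] at this
    push_cast at this
    exact this
  choose z hz using h1
  exact ⟨Matrix.of z, by ext i j; rw [Matrix.smul_apply, hz]; rfl⟩

end

end Pool.Agent.E8helper14.Pot
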