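import Pool.Agent.E8helper14.Pot.Frat

/-!
# A deformation of the regular representation of a direct product
-/

set_option autoImplicit false

namespace Pool.Agent.E8helper14.Pot

open Polynomial

/-! ### The congruence subgroup -/

/-- The units congruent to `1` modulo `p`. -/
def cong (T : Type) [Ring T] (p : ℕ) : Subgroup Tˣ where
  carrier := {u | ∃ M : T, (u : T) = 1 + (p : T) * M}
  mul_mem' := by
    rintro a b ⟨M, hM⟩ ⟨M', hM'⟩
    refine ⟨M + M' + (p : T) * M * M', ?_⟩
    have hc : M * (p : T) = (p : T) * M := (Nat.cast_commute p M).eq.symm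
    rw [Units.val_mul, hM, hM']
    calc (1 + (p : T) * M) * (1 + (p : T) * M')
        = 1 + (p : T) * M + (p : T) * M' + (p : T) * (M * (p : T)) * M' := by noncomm_ring
      _ = 1 + (p : T) * (M + M' + (p : T) * M * M') := by rw [hc]; noncomm_ring
  one_mem' := ⟨0, by simp⟩
  inv_mem' := by
    rintro a ⟨M, hM⟩
    refine ⟨-(M * (↑a⁻¹ : T)), ?_⟩
    have h1 : (a : T) * (↑a⁻¹ : T) = 1 := a.mul_inv
    have h2 : (↑a⁻¹ : T) + (p : T) * M * (↑a⁻¹ : T) = 1 := by
      calc (↑a⁻¹ : T) + (p : T) * M * (↑a⁻¹ : T) = (1 + (p : T) * M) * (↑a⁻¹ : T) := by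
            noncomm_ring
        _ = 1 := by rw [← hM, h1]
    calc (↑a⁻¹ : T) = ((↑a⁻¹ : T) + (p : T) * M * (↑a⁻¹ : T)) - (p : T) * M * (↑a⁻¹ : T) := by
          noncomm_ring
      _ = 1 + (p : T) * -(M * (↑a⁻¹ : T)) := by rw [h2]; noncomm_ring

theorem cong_normal (T : Type) [Ring T] (p : ℕ) : (cong T p).Normal := by
  constructor
  rintro n ⟨M, hM⟩ g
  refine ⟨(g : T) * M * (↑g⁻¹ : T), ?_⟩
  have hc : (g : T) * (p : T) = (p : T) * (g : T) := (Nat.cast_commute p (g : T)).eq.symm
  rw [Units.val_mul, Units.val_mul, hM]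
  calc (g : T) * (1 + (p : T) * M) * (↑g⁻¹ : T)
      = (g : T) * (↑g⁻¹ : T) + ((g : T) * (p : T)) * M * (↑g⁻¹ : T) := by noncomm_ring
    _ = 1 + (p : T) * ((g : T) * M * (↑g⁻¹ : T)) := by rw [hc, g.mul_inv]; noncomm_ring

theorem cong_isPGroup (T : Type) [Ring T] (p m : ℕ) (hpm : (p : T) ^ m = 0) :
    IsPGroup p (cong T p) := by
  rintro ⟨u, M, hM⟩
  refine ⟨m, ?_⟩
  apply Subtype.ext
  apply Units.ext
  push_cast
  have h1 : ((p : ℕ) : ℤ[X]) ∣ (1 + (p : ℤ[X]) * X) - 1 := ⟨X, by ring⟩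
  have h2 := dvd_sub_pow_of_dvd_sub h1 m
  obtain ⟨W, hW⟩ := h2
  have h3 := congrArg (Polynomial.aeval M) hW
  simp only [map_sub, map_pow, map_add, map_one, map_mul, map_natCast, aeval_X, one_pow] at h3
  have h4 : (p : T) ^ (m + 1) = 0 := by rw [pow_succ, hpm, zero_mul]
  rw [h4, zero_mul, sub_eq_zero] at h3
  show ((u : T)) ^ p ^ m = 1
  rw [hM, h3]

/-! ### Permutation matrices and the deformation -/

section

variable (C : Type) [Group C] [Fintype C] [DecidableEq C]

/-- permutation matrices of the left regular representation -/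
def Pm : C →* Matrix C C ℤ where
  toFun c := Matrix.of fun i j => if i = c * j then 1 else 0
  map_one' := by
    ext i j
    simp [Matrix.one_apply]
  map_mul' c d := by
    ext i j
    simp [Matrix.mul_apply, mul_assoc]

/-- the matrix `N` -/
def Nm : Matrix C C ℤ := Matrix.of fun i j => if i = 1 ∧ j ≠ 1 then 1 else 0

theorem Nm_sq : Nm C * Nm C = 0 := by
  ext i j
  rw [Matrix.mul_apply]
  apply Finset.sum_eq_zero
  intro k _
  simp only [Nm, Matrix.of_apply]
  by_cases hk : k = 1 <;> simp [hk]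

theorem Nm_mul (c : C) (hc : c ≠ 1) : Nm C * Pm C c * Nm C = Nm C := by
  have h1 : ∀ k j, (Pm C c * Nm C) k j = if k = c ∧ j ≠ 1 then 1 else 0 := by
    intro k j
    rw [Matrix.mul_apply, Finset.sum_eq_single 1]
    · simp only [Pm, Nm, MonoidHom.coe_mk, OneHom.coe_mk, Matrix.of_apply, mul_one, true_and]
      by_cases h1 : k = c <;> by_cases h2 : j = 1 <;> simp [h1, h2]
    · intro b _ hb
      simp [Nm, hb]
    · simp
  ext i j
  rw [mul_assoc, Matrix.mul_apply, Finset.sum_eq_single c]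
  · rw [h1]
    simp only [Nm, Matrix.of_apply]
    by_cases h2 : i = 1 <;> by_cases h3 : j = 1 <;> simp [h2, h3, hc]
  · intro b _ hb
    rw [h1]
    simp [hb]
  · simp

omit [Fintype C] in
theorem Nm_ne (c : C) (hc : c ≠ 1) : Nm C ≠ 0 := by
  intro h
  have := congrFun (congrFun h 1) c
  simp [Nm, hc] at this

/-- `1 + X N` -/
noncomputable def uu : (Matrix C C ℤ)[X] := 1 + X * Polynomial.C (Nm C)

/-- `1 - X N` -/
noncomputable def vv : (Matrix C C ℤ)[X] := 1 - X * Polynomial.C (Nm C)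

theorem XN_sq : (X * Polynomial.C (Nm C)) * (X * Polynomial.C (Nm C)) = 0 := by
  rw [mul_assoc, ← mul_assoc (Polynomial.C (Nm C)) X, ← Polynomial.X_mul_C, mul_assoc X,
    ← Polynomial.C_mul, Nm_sq, Polynomial.C_0, mul_zero, mul_zero]

theorem vu : vv C * uu C = 1 := by
  have h := XN_sq C
  unfold uu vv
  generalize X * Polynomial.C (Nm C) = a at h
  rw [sub_mul, mul_add, mul_add, h]
  simp

theorem uv : uu C * vv C = 1 := by
  have h := XN_sq C
  unfold uu vv
  generalize X * Polynomial.C (Nm C) = a at h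
  rw [add_mul, mul_sub, mul_sub, h]
  simp

/-- the conjugate representation -/
noncomputable def Dm : C →* (Matrix C C ℤ)[X] where
  toFun c := uu C * Polynomial.C (Pm C c) * vv C
  map_one' := by rw [map_one, Polynomial.C_1, mul_one, uv]
  map_mul' c d := by
    rw [map_mul, Polynomial.C_mul]
    calc uu C * (Polynomial.C (Pm C c) * Polynomial.C (Pm C d)) * vv C
        = uu C * Polynomial.C (Pm C c) * 1 * Polynomial.C (Pm C d) * vv C := by noncomm_ring
      _ = uu C * Polynomial.C (Pm C c) * (vv C * uu C) * Polynomial.C (Pm C d) * vv C := by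
        rw [vu]
      _ = _ := by noncomm_ring

theorem uu_deg : (uu C).natDegree ≤ 1 := by
  unfold uu
  refine natDegree_add_le_of_degree_le (by simp) ?_
  refine (natDegree_mul_le).trans ?_
  simp

theorem vv_deg : (vv C).natDegree ≤ 1 := by
  unfold vv
  refine (natDegree_sub_le _ _).trans ?_
  rw [max_le_iff]
  refine ⟨by simp, ?_⟩
  refine (natDegree_mul_le).trans ?_
  simp

theorem uu_coeff : (uu C).coeff 1 = Nm C := by
  simp [uu, coeff_one]

theorem vv_coeff : (vv C).coeff 1 = - Nm C := by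
  simp [vv, coeff_one]

theorem Dm_deg (c : C) : (Dm C c).natDegree ≤ 2 := by
  show (uu C * Polynomial.C (Pm C c) * vv C).natDegree ≤ 2
  refine natDegree_mul_le.trans ?_
  have h1 : (uu C * Polynomial.C (Pm C c)).natDegree ≤ 1 :=
    (natDegree_mul_C_le _ _).trans (uu_deg C)
  have h2 := vv_deg C
  omega

theorem Dm_coeff (c : C) (hc : c ≠ 1) : (Dm C c).coeff 2 = - Nm C := by
  show (uu C * Polynomial.C (Pm C c) * vv C).coeff (1 + 1) = - Nm C
  rw [coeff_mul_add_eq_of_natDegree_le ((natDegree_mul_C_le _ _).trans (uu_deg C)) (vv_deg C),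
    coeff_mul_C, uu_coeff, vv_coeff, mul_neg, Nm_mul C c hc]

theorem Dm_const (c : C) : (Dm C c).coeff 0 = Pm C c := by
  show (uu C * Polynomial.C (Pm C c) * vv C).coeff 0 = Pm C c
  rw [mul_coeff_zero, mul_coeff_zero]
  simp [uu, vv]

end

end Pool.Agent.E8helper14.Pot
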