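import Pool.Agent.E8helper14.Pot.Rep

/-!
# Reduced expressions in a free product and their images under the deformation
-/

set_option autoImplicit false

namespace Pool.Agent.E8helper14.Pot

open Polynomial Monoid.Coprod

section

variable {A B : Type} [Group A] [Group B]

/-- expressions `a₀ b₁ a₁ b₂ ⋯ b_r`, with conditions on `b₁, …, b_r` and on `a₁, …, a_{r-1}` -/
inductive Ex (pa : A → Prop) (pb : B → Prop) : ℕ → Monoid.Coprod A B → Prop
  | base (a : A) (b : B) : pb b → Ex pa pb 1 (inl a * inr b)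
  | step (r : ℕ) (y : Monoid.Coprod A B) (a : A) (b : B) : Ex pa pb r y → pa a → pb b →
      Ex pa pb (r + 1) (y * inl a * inr b)

theorem Ex.mono {pa qa : A → Prop} {pb qb : B → Prop} (ha : ∀ a, pa a → qa a)
    (hb : ∀ b, pb b → qb b) {r : ℕ} {y : Monoid.Coprod A B} (h : Ex pa pb r y) : Ex qa qb r y := by
  induction h with
  | base a b h => exact Ex.base a b (hb b h)
  | step r y a b _ h1 h2 ih => exact Ex.step r y a b ih (ha a h1) (hb b h2)

theorem Ex.pos {pa : A → Prop} {pb : B → Prop} {r : ℕ} {y : Monoid.Coprod A B}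
    (h : Ex pa pb r y) : 1 ≤ r := by
  cases h <;> omega

/-- every element has a reduced expression -/
def HasEx (g : Monoid.Coprod A B) : Prop :=
  (∃ a : A, g = inl a) ∨ ∃ (r : ℕ) (y : Monoid.Coprod A B) (a : A),
    Ex (fun a => a ≠ 1) (fun b => b ≠ 1) r y ∧ g = y * inl a

theorem HasEx.mul_inr {g : Monoid.Coprod A B} (h : HasEx g) (b' : B) : HasEx (g * inr b') := by
  by_cases hb' : b' = 1
  · rw [hb', map_one, mul_one]; exact h
  rcases h with ⟨a, rfl⟩ | ⟨r, y, a, hy, rfl⟩
  · exact Or.inr ⟨1, _, 1, Ex.base a b' hb', by rw [map_one, mul_one]⟩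
  · by_cases ha : a = 1
    · subst ha
      rw [map_one, mul_one]
      cases hy with
      | base a0 b hb =>
        by_cases hbb : b * b' = 1
        · exact Or.inl ⟨a0, by rw [mul_assoc, ← map_mul, hbb, map_one, mul_one]⟩
        · refine Or.inr ⟨1, _, 1, Ex.base a0 (b * b') hbb, ?_⟩
          rw [map_one, mul_one, map_mul, mul_assoc]
      | step r z a1 b hz ha1 hb =>
        by_cases hbb : b * b' = 1
        · exact Or.inr ⟨r, z, a1, hz, by rw [mul_assoc, ← map_mul, hbb, map_one, mul_one]⟩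
        · refine Or.inr ⟨r + 1, _, 1, Ex.step r z a1 (b * b') hz ha1 hbb, ?_⟩
          rw [map_one, mul_one, map_mul, mul_assoc, mul_assoc]
    · exact Or.inr ⟨r + 1, _, 1, Ex.step r y a b' hy ha hb', by rw [map_one, mul_one]⟩

theorem HasEx.mul_inl {g : Monoid.Coprod A B} (h : HasEx g) (a' : A) : HasEx (g * inl a') := by
  rcases h with ⟨a, rfl⟩ | ⟨r, y, a, hy, rfl⟩
  · exact Or.inl ⟨a * a', by rw [map_mul]⟩
  · exact Or.inr ⟨r, y, a * a', hy, by rw [map_mul, mul_assoc]⟩

theorem hasEx (g : Monoid.Coprod A B) : HasEx g := by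
  have h : ∀ h : Monoid.Coprod A B, HasEx h → HasEx (h * g) := by
    induction g using Monoid.Coprod.induction_on with
    | inl a => exact fun h hh => hh.mul_inl a
    | inr b => exact fun h hh => hh.mul_inr b
    | mul x y hx hy => exact fun h hh => by rw [← mul_assoc]; exact hy _ (hx _ hh)
  have h1 := h 1 (Or.inl ⟨1, by rw [map_one]⟩)
  rwa [one_mul] at h1

open Classical in
theorem Ex.finite {r : ℕ} {y : Monoid.Coprod A B}
    (h : Ex (fun a : A => a ≠ 1) (fun b : B => b ≠ 1) r y) :
    ∃ (FA : Finset A) (FB : Finset B), (∀ a ∈ FA, a ≠ 1) ∧ (∀ b ∈ FB, b ≠ 1) ∧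
      Ex (fun a => a ∈ FA) (fun b => b ∈ FB) r y := by
  induction h with
  | base a b h => exact ⟨∅, {b}, by simp, by simpa using h, Ex.base a b (by simp)⟩
  | step r y a b _ h1 h2 ih =>
    obtain ⟨FA, FB, hA, hB, hE⟩ := ih
    refine ⟨insert a FA, insert b FB, ?_, ?_, ?_⟩
    · intro c hc
      rcases Finset.mem_insert.1 hc with rfl | hc
      · exact h1
      · exact hA c hc
    · intro c hc
      rcases Finset.mem_insert.1 hc with rfl | hc
      · exact h2
      · exact hB c hc
    · exact Ex.step r y a b (hE.mono (fun c hc => Finset.mem_insert_of_mem hc)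
        (fun c hc => Finset.mem_insert_of_mem hc)) (Finset.mem_insert_self _ _)
        (Finset.mem_insert_self _ _)

variable (C : Type) [Group C] [Fintype C] [DecidableEq C] (α : A →* C) (β : B →* C)

/-- the deformation -/
noncomputable def rho : Monoid.Coprod A B →* (Matrix C C ℤ)[X] :=
  Monoid.Coprod.lift (((Polynomial.C : Matrix C C ℤ →+* _) : Matrix C C ℤ →* _).comp
    ((Pm C).comp α)) ((Dm C).comp β)

theorem rho_inl (a : A) : rho C α β (inl a) = Polynomial.C (Pm C (α a)) := rfl

theorem rho_inr (b : B) : rho C α β (inr b) = Dm C (β b) := rfl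

theorem rho_top {r : ℕ} {y : Monoid.Coprod A B}
    (h : Ex (fun a : A => α a ≠ 1) (fun b : B => β b ≠ 1) r y) :
    (rho C α β y).natDegree ≤ 2 * r ∧ ∃ (ε : ℤ) (a : A), ε ≠ 0 ∧
      (rho C α β y).coeff (2 * r) = ε • (Pm C (α a) * Nm C) := by
  induction h with
  | base a b h =>
    rw [map_mul, rho_inl, rho_inr]
    refine ⟨(natDegree_C_mul_le _ _).trans (Dm_deg C _), -1, a, by norm_num, ?_⟩
    rw [coeff_C_mul, mul_one, Dm_coeff C _ h]
    simp
  | step r y a b _ h1 h2 ih =>
    obtain ⟨hd, ε, a0, hε, hc⟩ := ih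
    rw [map_mul, map_mul, rho_inl, rho_inr]
    have hd' : (rho C α β y * Polynomial.C (Pm C (α a))).natDegree ≤ 2 * r :=
      (natDegree_mul_C_le _ _).trans hd
    refine ⟨?_, -ε, a0, by simpa using hε, ?_⟩
    · refine natDegree_mul_le.trans ?_
      have := Dm_deg C (β b)
      omega
    · rw [show 2 * (r + 1) = 2 * r + 2 by ring,
        coeff_mul_add_eq_of_natDegree_le hd' (Dm_deg C _), coeff_mul_C, Dm_coeff C _ h2, hc]
      rw [smul_mul_assoc, smul_mul_assoc, mul_neg, smul_neg, neg_smul, mul_assoc, mul_assoc,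
        ← mul_assoc (Nm C), Nm_mul C _ h1]

end

theorem rho_const {A B : Type} [Group A] [Group B] (H K : Type) [Group H] [Group K] [Fintype H]
    [Fintype K] [DecidableEq H] [DecidableEq K] (α : A →* H) (β : B →* K)
    (g : Monoid.Coprod A B) :
    (rho (H × K) ((MonoidHom.inl H K).comp α) ((MonoidHom.inr H K).comp β) g).coeff 0 =
      Pm (H × K) (α (fst g), β (snd g)) := by
  have h : ((constantCoeff : (Matrix (H × K) (H × K) ℤ)[X] →+* Matrix (H × K) (H × K) ℤ) :
      (Matrix (H × K) (H × K) ℤ)[X] →* Matrix (H × K) (H × K) ℤ).comp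
      (rho (H × K) ((MonoidHom.inl H K).comp α) ((MonoidHom.inr H K).comp β)) =
      (Pm (H × K)).comp ((α.comp fst).prod (β.comp snd)) := by
    apply Monoid.Coprod.hom_ext
    · ext1 a
      show (rho (H × K) ((MonoidHom.inl H K).comp α) ((MonoidHom.inr H K).comp β) (inl a)).coeff 0
        = Pm (H × K) (α a, β 1)
      rw [rho_inl, coeff_C_zero, map_one]
      rfl
    · ext1 b
      show (rho (H × K) ((MonoidHom.inl H K).comp α) ((MonoidHom.inr H K).comp β) (inr b)).coeff 0
        = Pm (H × K) (α 1, β b)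
      rw [rho_inr, Dm_const, map_one]
      rfl
  exact DFunLike.congr_fun h g

end Pool.Agent.E8helper14.Pot
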